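import Pool.Agent.H68.GCL.Targets

/-! # REL. Relabelled automata and relabelled paths -/

set_option autoImplicit false

namespace Pool.Agent.H72.GCL

open Pool.Agent.H76.SW Pool.Agent.H68.GCL

theorem rel_evalFrom {L L' : Type} {s : ℕ} (f : L → L') (M : NFA L (Fin s)) (S : Set (Fin s))
    (w' : List L') (y : Fin s) :
    y ∈ (rel f M).evalFrom S w' ↔ ∃ w, w.map f = w' ∧ y ∈ M.evalFrom S w := by
  induction w' using List.reverseRecOn generalizing y with
  | nil =>
    constructor
    · intro h
      exact ⟨[], rfl, h⟩
    · rintro ⟨w, hw, h⟩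
      rw [List.map_eq_nil_iff] at hw
      subst hw
      exact h
  | append_singleton w' l' ih =>
    constructor
    · intro h
      unfold NFA.evalFrom at h ih
      rw [List.foldl_append, List.foldl_cons, List.foldl_nil, NFA.mem_stepSet] at h
      obtain ⟨t, ht, l, hl, hy⟩ := h
      obtain ⟨w, hw, htw⟩ := (ih t).1 ht
      refine ⟨w ++ [l], by rw [List.map_append, hw, List.map_cons, List.map_nil, hl], ?_⟩
      unfold NFA.evalFrom
      rw [List.foldl_append, List.foldl_cons, List.foldl_nil, NFA.mem_stepSet]
      exact ⟨t, htw, hy⟩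
    · rintro ⟨w, hw, h⟩
      rcases List.eq_nil_or_concat w with h0 | ⟨w0, l, h0⟩
      · subst h0
        simp at hw
      · subst h0
        rw [List.concat_eq_append, List.map_append, List.map_cons, List.map_nil] at hw
        obtain ⟨h1, h2⟩ := List.append_inj' hw rfl
        rw [List.concat_eq_append] at h
        unfold NFA.evalFrom at h ih ⊢
        rw [List.foldl_append, List.foldl_cons, List.foldl_nil, NFA.mem_stepSet] at h ⊢
        obtain ⟨t, ht, hy⟩ := h
        exact ⟨t, (ih t).2 ⟨w0, h1, ht⟩, l, by simpa using h2, hy⟩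

theorem pf_REL : T_REL := by
  constructor
  · intro L L' s f M w'
    rw [NFA.mem_accepts]
    constructor
    · rintro ⟨S, hS, h⟩
      obtain ⟨w, hw, h'⟩ := (rel_evalFrom f M _ w' S).1 h
      exact ⟨w, NFA.mem_accepts.2 ⟨S, hS, h'⟩, hw⟩
    · rintro ⟨w, hw, h⟩
      obtain ⟨S, hS, h'⟩ := NFA.mem_accepts.1 hw
      exact ⟨S, hS, (rel_evalFrom f M _ w' S).2 ⟨w, h, h'⟩⟩
  · intro Λ Λ' V f F F' hF w
    induction w with
    | nil =>
      intro u v
      constructor
      · intro h
        cases h
        exact Path.nil u
      · intro h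
        cases h
        exact Path.nil u
    | cons l w ih =>
      intro u v
      constructor
      · intro h
        rw [List.map_cons] at h
        cases h with
        | cons _ t _ _ _ h1 h2 => exact Path.cons u t v l w ((hF l u t).1 h1) ((ih t v).1 h2)
      · intro h
        rw [List.map_cons]
        cases h with
        | cons _ t _ _ _ h1 h2 =>
          exact Path.cons u t v (f l) (w.map f) ((hF l u t).2 h1) ((ih t v).2 h2)

end Pool.Agent.H72.GCL
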